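import Mathlib

namespace Pool.Agent.Results.MP_2c613a_co.Infinite

open Finset

/-- `f(r) = ∞` for `r ≥ 3`: edges are maps `e : Fin r → ℕ`, with vertex `(i, e i)` on side `i`. -/
theorem result (r : ℕ) (hr : 3 ≤ r) (N : ℕ) :
    ∃ E : Finset (Fin r → ℕ), (∀ e ∈ E, ∀ e' ∈ E, ∃ i, e i = e' i) ∧
      (∃ C : Finset (Fin r × ℕ), (∀ v ∈ C, ∃ e ∈ E, e v.1 = v.2) ∧ (∀ e ∈ E, ∃ i, (i, e i) ∈ C) ∧
        (∀ e ∈ E, ∃ i, (i, e i) ∉ C) ∧ (∀ i, ∃ e ∈ E, (i, e i) ∉ C)) ∧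
      ∀ C : Finset (Fin r × ℕ), (∀ e ∈ E, ∃ i, (i, e i) ∈ C) → (∀ e ∈ E, ∃ i, (i, e i) ∉ C) →
        (∀ i, ∃ e ∈ E, (i, e i) ∉ C) → N ≤ C.card := by
  obtain ⟨s, rfl⟩ : ∃ s, r = s + 3 := ⟨r - 3, by omega⟩
  let ed : ℕ → Fin (s + 3) → ℕ := fun j i => if i = 0 then 0 else j
  have n1 : (1 : Fin (s + 3)) ≠ 0 := by simp
  have n2 : (2 : Fin (s + 3)) ≠ 0 := by
    intro h; have := congrArg Fin.val h
    rw [Fin.val_two] at this; simp at this
  have n3 : (1 : Fin (s + 3)) ≠ 2 := by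
    intro h; have := congrArg Fin.val h
    rw [Fin.val_two] at this; simp at this
  refine ⟨(range (N + 2)).image ed, ?_,
    ⟨(range (N + 2)).image (fun j => (if j = 0 then 1 else 2, j)), ?_, ?_, ?_, ?_⟩, ?_⟩
  · simp only [mem_image]
    rintro _ ⟨j, _, rfl⟩ _ ⟨k, _, rfl⟩
    exact ⟨0, by simp [ed]⟩
  · simp only [mem_image]
    rintro _ ⟨j, hj, rfl⟩
    refine ⟨_, ⟨j, hj, rfl⟩, ?_⟩
    by_cases h : j = 0 <;> simp [ed, h, n2]
  · intro e he
    obtain ⟨j, hj, rfl⟩ := mem_image.1 he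
    refine ⟨if j = 0 then 1 else 2, mem_image.2 ⟨j, hj, ?_⟩⟩
    by_cases h : j = 0 <;> simp [ed, h, n2]
  · intro e he
    refine ⟨0, fun h => ?_⟩
    obtain ⟨j, _, h⟩ := mem_image.1 h
    have := (Prod.mk.inj h).1
    split_ifs at this
    exacts [n1 this, n2 this]
  · intro i
    by_cases h : i = 1
    · refine ⟨ed 1, mem_image.2 ⟨1, mem_range.2 (by omega), rfl⟩, fun h' => ?_⟩
      obtain ⟨j, _, h'⟩ := mem_image.1 h'
      obtain ⟨a, b⟩ := Prod.mk.inj h'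
      rw [h] at a b
      simp only [ed, if_neg n1] at b
      rw [b, if_neg one_ne_zero] at a
      exact n3 a.symm
    · refine ⟨ed 0, mem_image.2 ⟨0, mem_range.2 (by omega), rfl⟩, fun h' => ?_⟩
      obtain ⟨j, _, h'⟩ := mem_image.1 h'
      obtain ⟨a, b⟩ := Prod.mk.inj h'
      simp only [ed, ite_self] at b
      rw [b, if_pos rfl] at a
      exact h a.symm
  · intro C h1 _ h3
    obtain ⟨e, he, h0⟩ := h3 0
    obtain ⟨j0, _, rfl⟩ := mem_image.1 he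
    have : range (N + 2) ⊆ C.image Prod.snd := by
      intro j hj
      obtain ⟨i, hi⟩ := h1 (ed j) (mem_image.2 ⟨j, hj, rfl⟩)
      by_cases h : i = 0
      · subst h; exact absurd (by simpa [ed] using hi) (by simpa [ed] using h0)
      · exact mem_image.2 ⟨_, hi, by simp [ed, h]⟩
    have a := card_le_card this
    have b := card_image_le (s := C) (f := Prod.snd)
    rw [card_range] at a
    omega

end Pool.Agent.Results.MP_2c613a_co.Infinite
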